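import Pool.Agent.Lib.MP_f7c5a7_al.E4.Asm

/-!
# MP_f7c5a7_al: the prime 2 belongs to S(n) for every n >= 4

There is a locally finite 4-Engel group of exponent 4 which is not solvable.
-/

set_option autoImplicit false

namespace Pool.Agent.Results.MP_f7c5a7_al.PrimeTwoFromFour

/-- The commutator `[x, y] = x⁻¹ y⁻¹ x y`. -/
def comm {G : Type} [Group G] (x y : G) : G := x⁻¹ * y⁻¹ * x * y

/-- The iterated commutator `[x, y, …, y]` with `n` copies of `y`. -/
def engelComm {G : Type} [Group G] : ℕ → G → G → G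
  | 0, x, _ => x
  | n + 1, x, y => comm (engelComm n x y) y

/-- `G` is `n`-Engel. -/
def IsEngel (n : ℕ) (G : Type) [Group G] : Prop := ∀ x y : G, engelComm n x y = 1

/-- Every finitely generated subgroup is nilpotent. -/
def LocallyNilpotent (G : Type) [Group G] : Prop :=
  ∀ H : Subgroup G, H.FG → Group.IsNilpotent H

/-- Every finitely generated subgroup is finite. -/
def LocallyFinite (G : Type) [Group G] : Prop := ∀ H : Subgroup G, H.FG → Finite H

/-- The set `S(n)` of the primes `p` for which some locally nilpotent `n`-Engel `p`-group is not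
solvable. -/
def S (n : ℕ) : Set ℕ :=
  {p | p.Prime ∧ ∃ (G : Type) (_ : Group G), LocallyNilpotent G ∧ IsPGroup p G ∧ IsEngel n G ∧
    ¬ Group.IsSolvable G}

theorem engelComm_eq {G : Type} [Group G] (x y : G) : ∀ n : ℕ,
    engelComm n x y = Pool.Agent.MP_f7c5a7_al.E4.eng n x y
  | 0 => rfl
  | n + 1 => by
    rw [engelComm, Pool.Agent.MP_f7c5a7_al.E4.eng, engelComm_eq x y n]
    rfl

theorem engelComm_one {G : Type} [Group G] (y : G) : ∀ n : ℕ, engelComm n 1 y = 1
  | 0 => rfl
  | n + 1 => by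
    rw [engelComm, engelComm_one y n, comm]
    group

theorem engelComm_add {G : Type} [Group G] (x y : G) (m : ℕ) : ∀ n : ℕ,
    engelComm (m + n) x y = engelComm n (engelComm m x y) y
  | 0 => rfl
  | n + 1 => by
    rw [← add_assoc, engelComm, engelComm, engelComm_add x y m n]

theorem engel_mono {G : Type} [Group G] (m n : ℕ) (h : m ≤ n) (hG : IsEngel m G) : IsEngel n G := by
  intro x y
  obtain ⟨k, rfl⟩ := Nat.exists_eq_add_of_le h
  rw [engelComm_add, hG x y, engelComm_one]

/-- The prime `2` belongs to `S(n)` for every `n ≥ 4`. The group can be taken locally finite of exponent `4`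
and `4`-Engel. -/
theorem result :
    (∀ n : ℕ, 4 ≤ n → 2 ∈ S n) ∧
    ∃ (G : Type) (_ : Group G), LocallyFinite G ∧ LocallyNilpotent G ∧ (∀ x : G, x ^ 4 = 1) ∧
      IsEngel 4 G ∧ ¬ Group.IsSolvable G := by
  have main : ∃ (G : Type) (_ : Group G), LocallyFinite G ∧ LocallyNilpotent G ∧
      (∀ x : G, x ^ 4 = 1) ∧ IsEngel 4 G ∧ ¬ Group.IsSolvable G := by
    obtain ⟨G, i, h1, h2, h3, h4⟩ := Pool.Agent.MP_f7c5a7_al.E4.main
    refine ⟨G, i, h1, ?_, h2, ?_, h4⟩
    · intro H hH
      have hf : Finite H := h1 H hH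
      have hp : IsPGroup 2 H := by
        intro x
        refine ⟨2, ?_⟩
        apply Subtype.ext
        exact h2 x
      have : Fact (Nat.Prime 2) := ⟨Nat.prime_two⟩
      exact hp.isNilpotent
    · intro x y
      rw [engelComm_eq]
      exact h3 x y
  refine ⟨?_, main⟩
  intro n hn
  obtain ⟨G, i, h1, h2, h3, h4, h5⟩ := main
  exact ⟨Nat.prime_two, G, i, h2, fun x => ⟨2, h3 x⟩, engel_mono 4 n hn h4, h5⟩

end Pool.Agent.Results.MP_f7c5a7_al.PrimeTwoFromFour
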