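import Pool.Agent.Lib.MP_f7c5a7_al.Three.Sol

/-!
# MP_f7c5a7_al: the prime 3 belongs to S(n) for every n >= 7

There is a locally finite 7-Engel group of exponent 9 which is not solvable.
-/

set_option autoImplicit false

namespace Pool.Agent.Results.MP_f7c5a7_al.ThreeFromSeven

/-- The commutator `[x, y] = x⁻¹ y⁻¹ x y`. -/
def comm {G : Type} [Group G] (x y : G) : G := x⁻¹ * y⁻¹ * x * y

/-- The iterated commutator `[x, y, …, y]` with `n` copies of `y`. -/
def engelComm {G : Type} [Group G] : ℕ → G → G → G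
  | 0, x, _ => x
  | n + 1, x, y => comm (engelComm n x y) y

/-- `G` is `n`-Engel. -/
def IsEngel (n : ℕ) (G : Type) [Group G] : Prop := ∀ x y : G, engelComm n x y = 1

/-- Every finitely generated subgroup is nilpotent. -/
def LocallyNilpotent (G : Type) [Group G] : Prop :=
  ∀ H : Subgroup G, H.FG → Group.IsNilpotent H

/-- Every finitely generated subgroup is finite. -/
def LocallyFinite (G : Type) [Group G] : Prop := ∀ H : Subgroup G, H.FG → Finite H

/-- The set `S(n)` of the primes `p` for which some locally nilpotent `n`-Engel `p`-group is not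
solvable. -/
def S (n : ℕ) : Set ℕ :=
  {p | p.Prime ∧ ∃ (G : Type) (_ : Group G), LocallyNilpotent G ∧ IsPGroup p G ∧ IsEngel n G ∧
    ¬ Group.IsSolvable G}

theorem engelComm_eq {G : Type} [Group G] (x y : G) : ∀ n : ℕ,
    engelComm n x y = Pool.Agent.Lib.MP_f7c5a7_al.Three.eng x y n
  | 0 => rfl
  | n + 1 => by
    rw [engelComm, Pool.Agent.Lib.MP_f7c5a7_al.Three.eng, engelComm_eq x y n]
    rfl

theorem locfin : LocallyFinite Pool.Agent.Lib.MP_f7c5a7_al.Three.G3 := by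
  intro K hK
  obtain ⟨s, rfl⟩ := hK
  have h1 : Finite (Subgroup.closure (Pool.Agent.Lib.MP_f7c5a7_al.Three.G3.subtype ''
      (s : Set Pool.Agent.Lib.MP_f7c5a7_al.Three.G3))) :=
    Pool.Agent.Lib.MP_f7c5a7_al.Three.finite_closure _ (s.finite_toSet.image _)
  have h2 : (Subgroup.closure (s : Set Pool.Agent.Lib.MP_f7c5a7_al.Three.G3)).map
      Pool.Agent.Lib.MP_f7c5a7_al.Three.G3.subtype =
      Subgroup.closure (Pool.Agent.Lib.MP_f7c5a7_al.Three.G3.subtype ''
        (s : Set Pool.Agent.Lib.MP_f7c5a7_al.Three.G3)) := MonoidHom.map_closure _ _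
  have h3 : Finite ((Subgroup.closure (s : Set Pool.Agent.Lib.MP_f7c5a7_al.Three.G3)).map
      Pool.Agent.Lib.MP_f7c5a7_al.Three.G3.subtype) := by rw [h2]; exact h1
  exact Finite.of_injective _ ((Subgroup.closure
    (s : Set Pool.Agent.Lib.MP_f7c5a7_al.Three.G3)).equivMapOfInjective
      Pool.Agent.Lib.MP_f7c5a7_al.Three.G3.subtype (Subgroup.subtype_injective _)).injective

/-- The prime `3` belongs to `S(n)` for every `n ≥ 7`. One locally finite group of exponent dividing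
`9` serves for all `n ≥ 7`. -/
theorem result :
    (∀ n : ℕ, 7 ≤ n → 3 ∈ S n) ∧
    ∃ (G : Type) (_ : Group G), LocallyFinite G ∧ LocallyNilpotent G ∧ (∀ x : G, x ^ 9 = 1) ∧
      IsEngel 7 G ∧ ¬ Group.IsSolvable G := by
  have h6 : ∀ n : ℕ, 7 ≤ n → IsEngel n Pool.Agent.Lib.MP_f7c5a7_al.Three.G3 := by
    intro n hn x y
    rw [engelComm_eq]
    exact Pool.Agent.Lib.MP_f7c5a7_al.Three.engel x y n hn
  have h9 : ∀ x : Pool.Agent.Lib.MP_f7c5a7_al.Three.G3, x ^ 9 = 1 := fun g =>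
    Subtype.ext (Pool.Agent.Lib.MP_f7c5a7_al.Three.pow_nine g.1 g.2)
  exact ⟨fun n hn => ⟨Nat.prime_three, Pool.Agent.Lib.MP_f7c5a7_al.Three.G3, inferInstance,
      Pool.Agent.Lib.MP_f7c5a7_al.Three.locnil, Pool.Agent.Lib.MP_f7c5a7_al.Three.pgroup,
      h6 n hn, Pool.Agent.Lib.MP_f7c5a7_al.Three.not_solvable⟩,
    Pool.Agent.Lib.MP_f7c5a7_al.Three.G3, inferInstance, locfin,
    Pool.Agent.Lib.MP_f7c5a7_al.Three.locnil, h9, h6 7 le_rfl,
    Pool.Agent.Lib.MP_f7c5a7_al.Three.not_solvable⟩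

end Pool.Agent.Results.MP_f7c5a7_al.ThreeFromSeven
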